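import Pool.Agent.Q21.DW.Gen
import Pool.Agent.Q319.DR.MultP

/-!
# Properties of positive integers near the multiples of almost all real numbers
-/

set_option autoImplicit false

namespace Pool.Agent.Q233.AM

open MeasureTheory Filter
open Pool.Agent.Q21.DW (PS)

open Classical in
/-- The number of the `k`, `1 ≤ k ≤ K`, for which some positive integer `m` with `|m - k y| ≤ R` does not have the
property `P`. -/
noncomputable def exceptions (P : ℕ → Prop) (K y R : ℝ) : ℕ :=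
  ((Finset.Icc 1 ⌊K⌋₊).filter (fun k : ℕ => ∃ m : ℕ, 1 ≤ m ∧ |(m : ℝ) - k * y| ≤ R ∧ ¬ P m)).card

/-- The properties `G i` of positive integers hold near the multiples of almost all real numbers: for `0 < θ < 1` there
is `κ > 0` such that for every `i`
1. for all large `X` and all real `y ∈ [X ^ (1 - θ), 2 X ^ (1 - θ)]` outside a set of measure at most
   `X ^ (1 - θ - κ)`, for all `k ≤ X ^ θ` but at most `X ^ (θ - κ)` EVERY positive integer `m` with `|m - k y| ≤ X ^ κ`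
   has the property `G i`;
2. for almost every `α ∈ [1, 2]` (the same `α` for all `i`), for all large `n`, for all `k ≤ 2 ^ (θ n)` but at most
   `2 ^ ((θ - κ) n)` EVERY positive integer `m` with `|m - k α 2 ^ ((1 - θ) n)| ≤ 2 ^ (κ n)` has the property `G i`. -/
def AtRealMultiples {ι : Type} (G : ι → ℕ → Prop) : Prop :=
  ∀ θ : ℝ, 0 < θ → θ < 1 → ∃ κ : ℝ, 0 < κ ∧
    (∀ i, ∃ X₀ : ℕ, ∀ X : ℕ, X₀ ≤ X →
      ∃ E : Set ℝ, MeasurableSet E ∧ volume E ≤ ENNReal.ofReal ((X : ℝ) ^ (1 - θ - κ)) ∧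
        ∀ y : ℝ, (X : ℝ) ^ (1 - θ) ≤ y → y ≤ 2 * (X : ℝ) ^ (1 - θ) → y ∉ E →
          (exceptions (G i) ((X : ℝ) ^ θ) y ((X : ℝ) ^ κ) : ℝ) ≤ (X : ℝ) ^ (θ - κ)) ∧
    ∀ᵐ α : ℝ, 1 ≤ α → α ≤ 2 → ∀ i, ∀ᶠ n : ℕ in atTop,
      (exceptions (G i) ((2 : ℝ) ^ (θ * n)) (α * (2 : ℝ) ^ ((1 - θ) * n)) ((2 : ℝ) ^ (κ * n)) : ℝ) ≤
        (2 : ℝ) ^ ((θ - κ) * n)

/-- From all scales to almost every number (Borel-Cantelli). -/
lemma ae_of_scales (θ κ : ℝ) (hκ : 0 < κ) (P : ℕ → ℝ → Prop)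
    (h : ∃ X₀ : ℕ, ∀ X : ℕ, X₀ ≤ X →
      ∃ E : Set ℝ, MeasurableSet E ∧ volume E ≤ ENNReal.ofReal ((X : ℝ) ^ (1 - θ - κ)) ∧
        ∀ y : ℝ, (X : ℝ) ^ (1 - θ) ≤ y → y ≤ 2 * (X : ℝ) ^ (1 - θ) → y ∉ E → P X y) :
    ∀ᵐ α : ℝ, 1 ≤ α → α ≤ 2 → ∀ᶠ i : ℕ in atTop, P (2 ^ i) (α * (2 : ℝ) ^ ((1 - θ) * i)) := by
  obtain ⟨X₀, h⟩ := h
  have hpow : ∀ i : ℕ, X₀ ≤ i → X₀ ≤ 2 ^ i := fun i hi => hi.trans Nat.lt_two_pow_self.le
  choose! E hE1 hE2 hE3 using h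
  set s : ℕ → Set ℝ := fun i => if X₀ ≤ i then (fun α : ℝ => (2 : ℝ) ^ ((1 - θ) * i) * α) ⁻¹' (E (2 ^ i)) else ∅ with hs
  have hpos : ∀ i : ℕ, (0 : ℝ) < (2 : ℝ) ^ ((1 - θ) * i) := fun i => Real.rpow_pos_of_pos (by norm_num) _
  have hcast : ∀ (i : ℕ) (a : ℝ), (((2 ^ i : ℕ) : ℝ)) ^ a = (2 : ℝ) ^ (a * i) := by
    intro i a
    push_cast
    rw [← Real.rpow_natCast, ← Real.rpow_mul (by norm_num), mul_comm]
  have hvol : ∀ i : ℕ, volume (s i) ≤ ENNReal.ofReal (((2 : ℝ) ^ (-κ)) ^ i) := by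
    intro i
    by_cases hi : X₀ ≤ i
    · simp only [hs, hi, if_true]
      rw [Real.volume_preimage_mul_left (hpos i).ne']
      refine (mul_le_mul_right (hE2 _ (hpow i hi)) _).trans ?_
      rw [← ENNReal.ofReal_mul (abs_nonneg _), abs_of_pos (inv_pos.2 (hpos i)), hcast, ← Real.rpow_neg (by norm_num),
        ← Real.rpow_add (by norm_num), ← Real.rpow_natCast, ← Real.rpow_mul (by norm_num)]
      refine ENNReal.ofReal_le_ofReal (le_of_eq ?_)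
      congr 1
      ring
    · simp only [hs, hi, if_false, measure_empty]
      exact bot_le
  have hr0 : (0 : ℝ) ≤ (2 : ℝ) ^ (-κ) := by positivity
  have hr1 : (2 : ℝ) ^ (-κ) < 1 := Real.rpow_lt_one_of_one_lt_of_neg (by norm_num) (by linarith)
  have hsum : ∑' i, volume (s i) ≠ ⊤ := by
    refine ne_top_of_le_ne_top ?_ (ENNReal.tsum_le_tsum hvol)
    rw [← ENNReal.ofReal_tsum_of_nonneg (fun i => pow_nonneg hr0 i) (summable_geometric_of_lt_one hr0 hr1)]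
    exact ENNReal.ofReal_ne_top
  filter_upwards [ae_eventually_notMem hsum] with α hα h1 h2
  filter_upwards [hα, eventually_ge_atTop X₀] with i hi hiX
  have hy : α * (2 : ℝ) ^ ((1 - θ) * i) ∉ E (2 ^ i) := by
    intro hcon
    apply hi
    simp only [hs, hiX, if_true]
    change (2 : ℝ) ^ ((1 - θ) * i) * α ∈ E (2 ^ i)
    rwa [mul_comm] at hcon
  have hp := (hpos i).le
  refine hE3 (2 ^ i) (hpow i hiX) _ ?_ ?_ hy
  · rw [hcast]
    nlinarith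
  · rw [hcast]
    exact mul_le_mul_of_nonneg_right h2 hp

/-- A power saving for the exceptions gives the property near the multiples of almost all real numbers. -/
theorem atRealMultiples_of {ι : Type} [Countable ι] {B G : ι → ℕ → Prop} {s : ℝ} (_h0 : 0 ≤ s) (h1 : s < 1)
    (h : ∀ i, PS s (B i)) (hG : ∀ i n, n ≠ 0 → ¬ B i n → G i n) : AtRealMultiples G := by
  classical
  intro θ hθ hθ1
  obtain ⟨δ, hδ, hδs⟩ : ∃ δ : ℝ, 0 < δ ∧ s < 1 - δ := ⟨(1 - s) / 2, by linarith, by linarith⟩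
  obtain ⟨κ, hκ, hm⟩ := Pool.Agent.Q319.DR.mult_fewP θ hθ hθ1 δ hδ
  have hsc : ∀ i, ∃ X₀ : ℕ, ∀ X : ℕ, X₀ ≤ X →
      ∃ E : Set ℝ, MeasurableSet E ∧ volume E ≤ ENNReal.ofReal ((X : ℝ) ^ (1 - θ - κ)) ∧
        ∀ y : ℝ, (X : ℝ) ^ (1 - θ) ≤ y → y ≤ 2 * (X : ℝ) ^ (1 - θ) → y ∉ E →
          (exceptions (G i) ((X : ℝ) ^ θ) y ((X : ℝ) ^ κ) : ℝ) ≤ (X : ℝ) ^ (θ - κ) := by
    intro i
    obtain ⟨C, hC⟩ := h i (1 - δ) hδs
    obtain ⟨T, hT⟩ : ∃ T : Set ℕ, ∀ m, m ∈ T ↔ 1 ≤ m ∧ ¬ G i m := ⟨{m : ℕ | 1 ≤ m ∧ ¬ G i m}, fun m => Iff.rfl⟩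
    obtain ⟨X₀, hX⟩ := hm |C| T (fun Y => by
      rcases Nat.eq_zero_or_pos Y with rfl | hY
      · simp only [Finset.Ioc_self, Finset.filter_empty, Finset.card_empty, Nat.cast_zero]
        positivity
      refine le_trans (Nat.cast_le.2 (Finset.card_le_card fun m hm => ?_))
        ((hC Y hY).trans (mul_le_mul_of_nonneg_right (le_abs_self C) (by positivity)))
      have h1 := Finset.mem_filter.1 hm
      have h2 := Finset.mem_Ioc.1 h1.1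
      refine Finset.mem_filter.2 ⟨Finset.mem_Icc.2 ⟨by omega, h2.2⟩, ?_⟩
      by_contra hB
      exact ((hT m).1 h1.2).2 (hG i m (by omega) hB))
    refine ⟨X₀, fun X hXX => ?_⟩
    obtain ⟨E, hE1, hE2, hE3⟩ := hX X hXX
    refine ⟨E, hE1, hE2, fun y hy1 hy2 hyE => le_trans ?_ (hE3 y hy1 hy2 hyE)⟩
    unfold exceptions
    refine Nat.cast_le.2 (Finset.card_le_card fun k hk => ?_)
    obtain ⟨h1, m, h2, h3, h4⟩ := Finset.mem_filter.1 hk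
    exact Finset.mem_filter.2 ⟨h1, m, h3, (hT m).2 ⟨h2, h4⟩⟩
  refine ⟨κ, hκ, hsc, ?_⟩
  have hcast : ∀ (i : ℕ) (a : ℝ), (((2 ^ i : ℕ) : ℝ)) ^ a = (2 : ℝ) ^ (a * i) := by
    intro i a
    push_cast
    rw [← Real.rpow_natCast, ← Real.rpow_mul (by norm_num), mul_comm]
  have hae : ∀ᵐ α : ℝ, ∀ i, 1 ≤ α → α ≤ 2 → ∀ᶠ n : ℕ in atTop,
      (exceptions (G i) ((2 : ℝ) ^ (θ * n)) (α * (2 : ℝ) ^ ((1 - θ) * n)) ((2 : ℝ) ^ (κ * n)) : ℝ) ≤
        (2 : ℝ) ^ ((θ - κ) * n) := by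
    rw [ae_all_iff]
    intro i
    filter_upwards [ae_of_scales θ κ hκ (fun X y =>
      (exceptions (G i) ((X : ℝ) ^ θ) y ((X : ℝ) ^ κ) : ℝ) ≤ (X : ℝ) ^ (θ - κ)) (hsc i)] with α hα h2 h3
    filter_upwards [hα h2 h3] with n hn
    simpa only [hcast] using hn
  filter_upwards [hae] with α hα h2 h3 i
  exact hα i h2 h3

end Pool.Agent.Q233.AM
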